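import Pool.Agent.Lib.MP_06793c_ag.Fin

/-!
# Curves which do not meet a given curve

`H_{d,g}` is the Hilbert scheme of locally Cohen-Macaulay curves of degree `d` and genus `g` in
`P^3` over an algebraically closed field. We show that every connected component of `H_{d,g}`
meets the open subset of the curves which do not meet a fixed curve (or a fixed line) in a
nonempty connected set; more generally this holds for every open condition which each curve
satisfies after a linear change of coordinates.
-/

namespace Pool.Agent.Results.MP_06793c_ag.AvoidingCurves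

open MvPolynomial _root_.MP_06793c_ag

universe u

/-- Let `P` be an open condition on the curves in `H_{d,g}` which every curve satisfies after a
linear change of coordinates. Every connected component of `H_{d,g}` meets the open subset defined
by `P` in a nonempty connected set. This applies to the condition of not meeting a fixed curve `D`
and to that of not meeting the line `x_0 = x_1 = 0`. -/
theorem result (k : Type u) [Field k] [IsAlgClosed k] (d : ℕ) (g : ℤ)
    (P : Ideal (S k) → Prop)
    (hP : (OpenCond k d g P ∧ ∀ K, IsCurve k d g K →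
        ∃ M : Matrix (Fin 4) (Fin 4) k, IsUnit M.det ∧ P (tr M K)) ∨
      (∃ (d' : ℕ) (g' : ℤ) (D : Ideal (S k)), IsCurve k d' g' D ∧ P = fun K => Dis k K D) ∨
      P = fun K => Dis k K (Ideal.span {X 0, X 1})) :
    -- every component meets the open subset
    (∀ K, IsCurve k d g K → ∃ M : Matrix (Fin 4) (Fin 4) k, IsUnit M.det ∧
      SameComp k d g K (tr M K) ∧ P (tr M K)) ∧
    -- two points of the open subset in the same component of `H_{d,g}` are in the same component
    -- of the open subset
    (∀ I J, P I → P J → (SameComp k d g I J ↔ SameCompP k d g P I J)) ∧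
    -- `H_{d,g}` is connected if and only if the open subset is
    (Conn k d g ↔ ∀ I J, IsCurve k d g I → IsCurve k d g J → P I → P J →
      SameCompP k d g P I J) := by
  have hinf : Infinite k := IsAlgClosed.instInfinite
  have hP' : OpenCond k d g P ∧ ∀ K, IsCurve k d g K →
      ∃ M : Matrix (Fin 4) (Fin 4) k, IsUnit M.det ∧ P (tr M K) := by
    rcases hP with hP | ⟨d', g', D, hD, rfl⟩ | rfl
    · exact hP
    · refine ⟨openCond_dis d g D hD.hom, fun K hK => ?_⟩
      obtain ⟨M, hM, hd⟩ := exists_dis hD hK
      exact ⟨M, hM, dis_symm hd⟩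
    · refine ⟨openCond_dis d g _ (isHom_line 0 1), fun K hK => ?_⟩
      obtain ⟨M, hM, N, hN⟩ := exists_line hK 0 1 (by decide)
      exact ⟨M, hM, N, hN⟩
  obtain ⟨hO, hM⟩ := hP'
  have h1 : ∀ K, IsCurve k d g K → ∃ M : Matrix (Fin 4) (Fin 4) k, IsUnit M.det ∧
      SameComp k d g K (tr M K) ∧ P (tr M K) := by
    intro K hK
    obtain ⟨M, hMu, hMp⟩ := hM K hK
    exact ⟨M, hMu, sameComp_of_oneFam (oneFam_tr hK M hMu), hMp⟩
  refine ⟨h1, fun I J hI hJ => open_cond hO hM hI hJ, ?_⟩
  constructor
  · intro hc I J hI hJ hPI hPJ
    exact (open_cond hO hM hPI hPJ).mp (hc I J hI hJ)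
  · intro hc I J hI hJ
    obtain ⟨M, hMu, e1, hMp⟩ := h1 I hI
    obtain ⟨M', hMu', e2, hMp'⟩ := h1 J hJ
    have e3 := (open_cond hO hM hMp hMp').mpr
      (hc _ _ (isCurve_tr hI M hMu) (isCurve_tr hJ M' hMu') hMp hMp')
    exact sameComp_trans e1 (sameComp_trans e3 (sameComp_symm e2))

end Pool.Agent.Results.MP_06793c_ag.AvoidingCurves
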