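import Pool.Agent.Lib.MP_06793c_ag.Fin

/-!
# Disjoint unions on the connected components of the schemes `H_{d,g}`

`H_{d,g}` is the Hilbert scheme of locally Cohen-Macaulay curves of degree `d` and genus `g` in
`P^3` over an algebraically closed field. Its points are the ideals `I` with `IsCurve k d g I`;
`SameComp k d g I J` says that two of them lie in the same connected component (they are joined by
a finite chain of families over principal open subsets of integral affine schemes of finite type).
`Comps k` is the set of all connected components of all `H_{d,g}`.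
-/

namespace Pool.Agent.Results.MP_06793c_ag.DisjointUnions

open MvPolynomial _root_.MP_06793c_ag

universe u

/-- The disjoint union of curves is well defined on connected components and makes the set of all
connected components of all `H_{d,g}` a commutative semigroup graded by `(d, 1 - g)`. -/
theorem result (k : Type u) [Field k] [IsAlgClosed k] :
    ∃ op : Comps k → Comps k → Comps k,
      -- `op` is given by the union of disjoint representatives, which always exist: for every
      -- curve `C` a linear change of coordinates moves `D` (inside its component) away from `C`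
      (∀ (C D : Curves k) (h : Dis k C.1 D.1), op (cl C) (cl D) = cl (union C D h)) ∧
      (∀ C D : Curves k, ∃ (M : Matrix (Fin 4) (Fin 4) k) (hM : IsUnit M.det),
        cl (trc M hM D) = cl D ∧ Dis k C.1 (trc M hM D).1) ∧
      -- it is commutative and associative, degree and Euler characteristic are additive
      (∀ x y, op x y = op y x) ∧ (∀ x y z, op (op x y) z = op x (op y z)) ∧
      (∀ x y, typ (op x y) = typ x + typ y) ∧
      -- all `H_{d,g}` are connected if and only if the grading is injective
      ((∀ (d : ℕ) (g : ℤ), Conn k d g) ↔ Function.Injective (typ (k := k))) ∧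
      -- pairwise disjoint unions of members of connected `H_{d i, g i}` lie in one component
      (∀ (ι : Type) (s : Finset ι) (_ : s.Nonempty) (d : ι → ℕ) (g : ι → ℤ)
        (_ : ∀ i ∈ s, Conn k (d i) (g i)) (I J : ι → Ideal (S k))
        (_ : ∀ i ∈ s, IsCurve k (d i) (g i) (I i)) (_ : ∀ i ∈ s, IsCurve k (d i) (g i) (J i))
        (_ : ∀ i ∈ s, ∀ j ∈ s, i ≠ j → Dis k (I i) (I j))
        (_ : ∀ i ∈ s, ∀ j ∈ s, i ≠ j → Dis k (J i) (J j)),
          SameComp k (∑ i ∈ s, d i) (1 - ∑ i ∈ s, (1 - g i)) (s.inf I) (s.inf J)) := by
  have hinf : Infinite k := IsAlgClosed.instInfinite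
  refine ⟨mulc, mulc_cl, ?_, mulc_comm, mulc_assoc, typ_mulc, conn_iff, ?_⟩
  · intro C D
    obtain ⟨M, hM, hd⟩ := exists_dis C.isCurve D.isCurve
    exact ⟨M, hM, cl_trc M hM D, hd⟩
  · intro ι s hs d g hc I J hI hJ hId hJd
    exact sameComp_finset s hs d g I J (fun i hi => hc i hi _ _ (hI i hi) (hJ i hi)) hId hJd

end Pool.Agent.Results.MP_06793c_ag.DisjointUnions
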