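import Pool.Agent.Lib.MP_06793c_ag.PG.Asm

/-!
# Curves with general sections along a pencil of planes

`H_{d,g}` is the Hilbert scheme of locally Cohen-Macaulay curves of degree `d` and genus `g` in
`P^3` over an algebraically closed field. All curves in `H_{d,g}` for which, for some line `L`
disjoint from the curve, each plane through `L` cuts the curve in a scheme with the largest
possible Hilbert function `min (d, (n+1)(n+2)/2)` lie in one connected component.
-/

namespace Pool.Agent.Results.MP_06793c_ag.PencilSections

open MvPolynomial _root_.MP_06793c_ag

universe u

/-- Any two curves `I`, `J` in `H_{d,g}` whose sections by the planes of a pencil with base line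
disjoint from the curve have the Hilbert function `min (d, (n+1)(n+2)/2)` lie in the same
connected component of `H_{d,g}`. -/
theorem result (k : Type u) [Field k] [IsAlgClosed k] (d : ℕ) (g : ℤ) (I J : Ideal (S k))
    (hI : IsCurve k d g I) (hJ : IsCurve k d g J)
    (hI' : PencilGeneral k d I) (hJ' : PencilGeneral k d J) : SameComp k d g I J :=
  pencil_general hI hJ hI' hJ'

end Pool.Agent.Results.MP_06793c_ag.PencilSections
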