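import Pool.Agent.Lib.MP_06793c_ag.PG.AsmS

/-!
# Curves of the same degree and genus are equivalent after adding disjoint lines

`H_{d,g}` is the Hilbert scheme of locally Cohen-Macaulay curves of degree `d` and genus `g` in
`P^3` over an algebraically closed field. For any two curves `C`, `C'` in `H_{d,g}` the union of
`C` with `N ≥ d (d - 1) / 2 + 1` disjoint lines and the union of `C'` with `N` disjoint lines lie in
the same connected component of `H_{d+N,g-N}`.
-/

namespace Pool.Agent.Results.MP_06793c_ag.StableConnectedness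

open MvPolynomial _root_.MP_06793c_ag

universe u

/-- Let `I`, `J` be any two curves of degree `d` and genus `g`, `N ≥ d (d - 1) / 2 + 1`, let `A i` be
`N` pairwise disjoint lines which do not meet `I` and `B i` be `N` pairwise disjoint lines which do
not meet `J`. Then the unions lie in the same connected component of `H_{d+N,g-N}`. -/
theorem result (k : Type u) [Field k] [IsAlgClosed k] (d : ℕ) (g : ℤ) (I J : Ideal (S k))
    (hI : IsCurve k d g I) (hJ : IsCurve k d g J) (N : ℕ) (hN : d * (d - 1) / 2 + 1 ≤ N)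
    (A B : Fin N → Ideal (S k)) (hA : ∀ i, IsCurve k 1 0 (A i)) (hB : ∀ i, IsCurve k 1 0 (B i))
    (hIA : ∀ i, Dis k I (A i)) (hJB : ∀ i, Dis k J (B i))
    (hAA : ∀ i j, i ≠ j → Dis k (A i) (A j)) (hBB : ∀ i j, i ≠ j → Dis k (B i) (B j)) :
    SameComp k (d + N) (g - N) (I ⊓ ⨅ i, A i) (J ⊓ ⨅ i, B i) := by
  rw [← Finset.inf_univ_eq_iInf, ← Finset.inf_univ_eq_iInf]
  have hpos := hI.pos
  have h1 : d * (d + 1) / 2 + 1 - d ≤ N := by
    obtain ⟨e, rfl⟩ : ∃ e, d = e + 1 := ⟨d - 1, by omega⟩
    have h2 : (e + 1) * (e + 1 + 1) = (e + 1) * (e + 1 - 1) + 2 * (e + 1) := by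
      rw [Nat.add_sub_cancel]; ring
    rw [h2, Nat.add_mul_div_left _ _ (by norm_num)]
    omega
  exact stable hI hJ Finset.univ Finset.univ A B h1 (by simp) (by simp) (fun i _ => hA i)
    (fun i _ => hB i) (fun i _ => hIA i) (fun i _ => hJB i) (fun i _ j _ => hAA i j)
    (fun i _ j _ => hBB i j)

end Pool.Agent.Results.MP_06793c_ag.StableConnectedness
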